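import Mathlib
import Pool.Agent.X169.RandomSetsExample

/-!
# The intermediate form of the strong law fails in Hilbert space for a compact expectation
-/

namespace Pool.Agent.Results.MP_3b082f_pr.CompactExpectationFails

open MeasureTheory ProbabilityTheory Filter Topology Set X169.RS

/-- `X` is B-convex: for some `n` and `ε > 0` there is no `(1+ε)`-isomorphic copy of `ℓ_1^n` in
`X`. -/
def BConvex (X : Type*) [NormedAddCommGroup X] [NormedSpace ℝ X] : Prop :=
  ∃ n : ℕ, ∃ ε : ℝ, 0 < ε ∧ ¬ ∃ T : (Fin n → ℝ) →ₗ[ℝ] X,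
    ∀ v : Fin n → ℝ, ∑ i, |v i| ≤ ‖T v‖ ∧ ‖T v‖ ≤ (1 + ε) * ∑ i, |v i|

theorem bconvex_of_inner (H : Type*) [NormedAddCommGroup H] [InnerProductSpace ℝ H] :
    BConvex H := by
  refine ⟨2, 1 / 10, by norm_num, ?_⟩
  rintro ⟨T, hT⟩
  have hp := parallelogram_bound (T ![1, 0]) (T ![0, 1])
  have hadd : T ![1, 0] + T ![0, 1] = T ![1, 1] := by
    rw [← map_add]
    congr 1
    ext i
    fin_cases i <;> simp
  have hsub : T ![1, 0] - T ![0, 1] = T ![1, -1] := by
    rw [← map_sub]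
    congr 1
    ext i
    fin_cases i <;> simp
  rw [hadd, hsub] at hp
  have h1 := (hT ![1, 0]).2
  have h2 := (hT ![0, 1]).2
  have h3 := (hT ![1, 1]).1
  have h4 := (hT ![1, -1]).1
  simp only [Fin.sum_univ_two, Matrix.cons_val_zero, Matrix.cons_val_one, abs_one, abs_zero,
    abs_neg] at h1 h2 h3 h4
  have h5 := norm_nonneg (T ![1, 0])
  have h6 := norm_nonneg (T ![0, 1])
  nlinarith

/-- There are a B-convex Banach space (the real Hilbert space `ℓ²`) and a uniformly bounded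
independent sequence of random sets with one common expectation `U`, with compact `U`, whose
averages do not converge to `U` in the Hausdorff distance at any point of the probability
space. -/
theorem result : BConvex ell2 ∧
    ∃ (Ω : Type) (_ : MeasurableSpace Ω) (μ : Measure Ω) (_ : IsProbabilityMeasure μ)
      (Ψ : ℕ → Ω → BC ell2) (U : BC ell2),
      IsCompact U.carrier ∧
      (∃ r : ℝ, ∀ n ω, (Ψ n ω).carrier ⊆ Metric.closedBall 0 r) ∧
      (∀ n, Measurable fun ω => R (Ψ n ω)) ∧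
      IndepSets Ψ μ ∧
      (∀ n, HasExpectation (Ψ n) U μ) ∧
      ∀ ω, ¬ Tendsto (fun n => Metric.hausdorffDist (avg Ψ n ω).carrier U.carrier) atTop
        (𝓝 0) := by
  refine ⟨bconvex_of_inner ell2, ?_⟩
  obtain ⟨b, hb⟩ := exists_orthonormal_ell2
  obtain ⟨Ω, mΩ, μ, hμ, Ψ, U, hUc, hUδ, hΨ, hm, hE, hI, hL⟩ :=
    exists_example hb (δ := 1 / 8) (by norm_num)
  refine ⟨Ω, mΩ, μ, hμ, Ψ, U, hUc, ⟨1, fun n ω x hx => ?_⟩, fun n => (hm n).measurable, hI, hE,
    fun ω => not_tendsto_of_large hUδ (hL ω)⟩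
  rw [mem_closedBall_zero_iff]
  exact hΨ n ω x hx

end Pool.Agent.Results.MP_3b082f_pr.CompactExpectationFails
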